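import Pool.Agent.HP778.QS.Almost

/-! # MP_d26ff6_al: structures in which almost all value groups have index at most four

Let `S = (G, -1, q)` be a finite quaternionic structure and `V(a) = {b : q(a,b) = 0}`. If more than
`63/64` of all value groups have index at most four, then `S` is of elementary type. More generally,
let `W` be a subgroup of index at most four, and call `a ∈ W` exceptional if `a` is outside the core
and `V(a) ∩ W` has index greater than four in `G`. If there are less than `|G|/64` exceptional
elements (less than `|G|/16` if `W ≠ G`), then `S` is of elementary type. Two applications: all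
`V(a)`, `a ∈ W` outside the core, have index at most four and few elements outside `W` are
orthogonal to few elements of `W`; or each value group is small or of index at most four.

Outline. Let `H ≠ G` contain the core. For `W = G` each `b ∈ G` is a product of two elements outside
`H` which are not exceptional, so all indices are at most `16`; hence the sets `z (V(a) ∩ V(ag))`
are large and contain an element which is not exceptional, and the argument of the starting library
and of `SubgroupIndexFour` applies to these. For `W ≠ G` a counting argument shows that there are no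
exceptional elements, unless the core has index at most four. -/

set_option autoImplicit false

namespace Pool.Agent.Results.MP_d26ff6_al.AlmostAllValueGroups

open Pool.Agent.H315R3.ETC Pool.Agent.TH673.VG

/-- the value group `V(a) = {x : q(a,x) = 0}` -/
def V (S : QData) (hS : IsQuat S) (a : S.G) : Subgroup S.G where
  carrier := {x | S.q a x = S.zero}
  one_mem' := (D hS a).one_mem
  mul_mem' := (D hS a).mul_mem
  inv_mem' := (D hS a).inv_mem

/-- the exceptional elements of `W`: those `a ∈ W` outside the core for which `V(a) ∩ W` has index
greater than four in `G` -/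
def Exceptional (S : QData) (hS : IsQuat S) (W : Subgroup S.G) : Set S.G :=
  {a | a ∈ W ∧ a ∉ Core S ∧ 4 < (V S hS a ⊓ W).index}

theorem result (S : QData) (hS : IsQuat S) (hfin : Finite S.G) :
    -- more than `63/64` of all value groups have index at most four
    (64 * {a : S.G | 4 < (V S hS a).index}.ncard < Nat.card S.G → Elem S) ∧
    -- less than `|G|/64` exceptional elements in a subgroup of index at most four
    (∀ W : Subgroup S.G, W.index ≤ 4 →
      64 * (Exceptional S hS W).ncard < Nat.card S.G → Elem S) ∧
    -- less than `|G|/16` exceptional elements in a proper subgroup of index at most four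
    (∀ W : Subgroup S.G, W.index ≤ 4 → W ≠ ⊤ →
      16 * (Exceptional S hS W).ncard < Nat.card S.G → Elem S) ∧
    -- `V(a)` has index at most four for `a ∈ W` outside the core, and there are less than
    -- `|G|²/128` pairs `(r,n)` with `r ∉ W`, `n ∈ W` and `q(r,n) = 0`
    (∀ W : Subgroup S.G, W.index ≤ 4 → (∀ a ∈ W, a ∉ Core S → (V S hS a).index ≤ 4) →
      128 * {p : S.G × S.G | p.1 ∉ W ∧ p.2 ∈ W ∧ S.q p.1 p.2 = S.zero}.ncard < Nat.card S.G ^ 2 →
      Elem S) ∧
    -- each value group has at most `k` elements or index at most four, more than `8 k` of them
    -- have index at most four, and `|G| > 128 k`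
    (∀ k : ℕ, 0 < k → 128 * k < Nat.card S.G →
      (∀ a : S.G, Nat.card (V S hS a) ≤ k ∨ (V S hS a).index ≤ 4) →
      8 * k < {a : S.G | (V S hS a).index ≤ 4}.ncard → Elem S) := by
  have main : ∀ W : Subgroup S.G, W.index ≤ 4 →
      64 * (Exceptional S hS W).ncard < Nat.card S.G → Elem S := fun W hW hB =>
    Pool.Agent.HP778.QS.elem_of_almost hS W hW hB
  refine ⟨fun hB => main ⊤ (by rw [Subgroup.index_top]; norm_num) ?_, main, fun W hW hWt hB =>
    Pool.Agent.HP778.QS.elem_of_almost_sub hS W hW hWt hB, fun W hW h1 hP =>
    Pool.Agent.HP778.QS.elem_of_pairs hS W hW h1 hP, fun k hk hG hd hR =>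
    Pool.Agent.HP778.QS.elem_of_dichotomy hS k hk hG hd hR⟩
  refine lt_of_le_of_lt (Nat.mul_le_mul_left _ (Set.ncard_le_ncard ?_ (Set.toFinite _))) hB
  rintro a ⟨-, -, h3⟩
  rw [inf_top_eq] at h3
  exact h3

end Pool.Agent.Results.MP_d26ff6_al.AlmostAllValueGroups
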