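import Mathlib
import Pool.Agent.R675.ETC4.Fin4

set_option autoImplicit false

/-! # MP_d26ff6_al: the elementary type conjecture for value groups with at most four elements

`V(a)` denotes the group of the `b` with `q(a,b) = 0`, and `-1` is arbitrary.  Every finite
quaternionic structure with `|V(a)| ≤ 4` for all `a ≠ 1` is of elementary type; it is an iterated
group extension of a structure with at most eight elements, and if it has more than eight elements,
then it is a group extension.

Proof in outline.  An element is half rigid if `V(a) ⊆ {1,-a}`, and birigid if `a` and `-a` are
half rigid.  Suppose that there is no birigid element.  If `V(a) = {1,-a,e,-ae}` with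
`-1 ∉ V(a)`, then `a, e, -ae` are pairwise orthogonal with product `-1` and equivalent to each
other; by the linkage axiom the multiplication by one of them maps elements outside of the group
generated by `-1, a, e` which are not half rigid to elements which are not half rigid.  The
product of the three is `-1`, and it follows that in a structure with more than fourteen elements
only `1` and `-1` can be half rigid.  If there are more than twenty-four elements, then a count
gives a quaternion, not of the form `q(b,b)`, such that one of its slots has an independent value
group; by regularity all its slots are independent, which is impossible by the friendship theorem.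
Structures with at most sixteen elements are of elementary type (by the starting result
`ValueGroupCriterion`), and an induction over elementary type excludes those with sixteen
elements without birigid elements. -/

namespace Pool.Agent.Results.MP_d26ff6_al.FourElementValueGroups

open Pool.Agent.H315R3.ETC Pool.Agent.Y920.ETC Pool.Agent.R675.ETC4

/-- all value groups `V(a) = {b : q(a,b) = 0}`, `a ≠ 1`, have at most four elements -/
def FourElementValues (S : QData) : Prop :=
  ∀ a : S.G, a ≠ 1 → {b : S.G | S.q a b = S.zero}.ncard ≤ 4

theorem result (S : QData) (hS : IsQuat S) (hfin : Finite S.G) (hV : FourElementValues S) :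
    -- the elementary type conjecture
    Elem S ∧
    -- the structure is an iterated group extension of a structure with at most eight elements
    (∃ (T : QData) (k : ℕ), IsQuat T ∧ Finite T.G ∧ Nat.card T.G ≤ 8 ∧
      2 ^ k * Nat.card T.G = Nat.card S.G ∧ FourElementValues T ∧ Iso (ext^[k] T) S) ∧
    -- structures with more than eight elements are group extensions
    (8 < Nat.card S.G → ∃ T : QData, IsQuat T ∧ FourElementValues T ∧
      2 * Nat.card T.G = Nat.card S.G ∧ Iso (ext T) S) ∧
    -- the elements which are not birigid form a subgroup with at most eight elements
    (8 < Nat.card S.G → ∃ B : Subgroup S.G, Nat.card B ≤ 8 ∧ S.neg ∈ B ∧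
      ∀ a : S.G, a ≠ 1 → a ≠ S.neg → (a ∉ B ↔
        ({b : S.G | S.q a b = S.zero} = {1, S.neg * a} ∧
          {b : S.G | S.q (S.neg * a) b = S.zero} = {1, a}))) := by
  refine ⟨elem_four hS hfin hV, iter4 _ S hS hfin le_rfl hV, ?_, ?_⟩
  · intro h8
    obtain ⟨b, hb⟩ := exists_bi9 hS (by omega) hV
    obtain ⟨T, hT, -, hc, hi, hN⟩ := bi_ext hS hb
    exact ⟨T, hT, hN 4 hV, hc, hi⟩
  · intro _
    obtain ⟨B, hB⟩ := Pool.Agent.Y67.ET.t_BASIC S hS
    refine ⟨B, card_basic4 hS B hB hV, (hB _).2 fun hb => hb.2.1 rfl, ?_⟩
    intro a ha1 ha2
    rw [hB, not_not]
    constructor
    · rintro ⟨-, -, h3, h4⟩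
      refine ⟨?_, ?_⟩
      · ext b
        constructor
        · intro hb
          exact h3 b hb
        · rintro (rfl | rfl)
          · exact q_one hS a
          · exact hS.qs1 a
      · ext b
        constructor
        · intro hb
          rcases h4 b hb with h5 | h5
          · exact Or.inl h5
          · right
            rw [neg_neg_mul hS] at h5
            exact h5
        · rintro (rfl | rfl)
          · exact q_one hS _
          · show S.q (S.neg * b) b = S.zero
            rw [hS.qs2]
            exact hS.qs1 b
    · rintro ⟨h3, h4⟩
      refine ⟨ha1, ha2, ?_, ?_⟩
      · intro e he
        have : e ∈ ({1, S.neg * a} : Set S.G) := by rw [← h3]; exact he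
        exact this
      · intro e he
        have : e ∈ ({1, a} : Set S.G) := by rw [← h4]; exact he
        rw [neg_neg_mul hS]
        exact this

end Pool.Agent.Results.MP_d26ff6_al.FourElementValueGroups
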