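import Mathlib
import Pool.Agent.R675.PQ.Ext

set_option autoImplicit false

/-! # MP_d26ff6_al: group extensions are recognised by partitions of `G/{1,-1}`

`V(a)` denotes the group of the `b` with `q(a,b) = 0`, and `-1` is arbitrary.  A finite
quaternionic structure with at least eight elements is a group extension if and only if `G/{1,-1}`
has a partition into proper subgroups such that each `V(a)`, `a ≠ 1`, lies in a part which
contains `a`.  If there is such a partition, then the structure is an iterated group extension of a
structure which is not larger than the largest part; hence the elementary type conjecture holds if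
the parts have at most sixteen elements.

Proof in outline.  Choose a part `K₀` which contains an element other than `1, -1` and contains
`V(-1)` if `-1 ≠ 1`.  Let `a ∈ K₀`, `a ≠ 1, -1`, and `b ∉ K₀`, and consider the quaternion
`t = q(a,b)`.  By the linkage axiom no `t = q(u,c)` has both `u` and `c` in one part (`u ≠ -1`
unless the part is `K₀`), and it follows that `a` is the only slot of `t` in `K₀`, that
`t ≠ q(e,e)` for all `e`, and that different slots of `t` have independent value groups.  By the
friendship theorem at most one slot of `t` is not rigid.  So `a` or `b` is rigid; hence all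
elements outside of `K₀` are rigid, or all elements of `K₀` other than `1, -1` are rigid, and there
is a birigid element.  The subgroup of the elements which are not birigid lies in a subgroup of
index two, and the partition can be restricted to it. -/

namespace Pool.Agent.Results.MP_d26ff6_al.Partitions

open Pool.Agent.H315R3.ETC Pool.Agent.R675.PQ

theorem result (S : QData) (hS : IsQuat S) (hfin : Finite S.G) :
    -- recognition of group extensions
    (8 ≤ Nat.card S.G → ((∃ T : QData, IsQuat T ∧ Iso (ext T) S) ↔
      ∃ P : Set (Subgroup S.G), IsPartition S P ∧ ContainsValueGroups S P)) ∧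
    -- partitions with parts of bounded order
    (∀ (P : Set (Subgroup S.G)) (N : ℕ), IsPartition S P → ContainsValueGroups S P →
      (∀ K ∈ P, Nat.card K ≤ N) → ∃ (T : QData) (k : ℕ), IsQuat T ∧ Finite T.G ∧
        Nat.card T.G ≤ N ∧ 2 ^ (k + 1) * Nat.card T.G = Nat.card S.G ∧ Iso (ext^[k + 1] T) S) ∧
    -- the elementary type conjecture for partitions with small parts
    (∀ P : Set (Subgroup S.G), IsPartition S P → ContainsValueGroups S P →
      (∀ K ∈ P, Nat.card K ≤ 16) → Elem S) ∧
    -- minimal counterexamples have no such partition
    (¬ Elem S → (∀ T : QData, IsQuat T → Finite T.G → Nat.card T.G < Nat.card S.G → Elem T) →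
      ∀ P : Set (Subgroup S.G), IsPartition S P → ¬ ContainsValueGroups S P) := by
  refine ⟨recognition hS, ?_, ?_, ?_⟩
  · intro P N hP hV hN
    exact iter_partition _ S hS hfin le_rfl P hP hV hN
  · intro P hP hV hN
    exact elem_of_partition hS hP hV hN
  · intro hE hmin P hP hV
    apply hE
    obtain ⟨b, hb⟩ := exists_bi_of_partition hS hP hV
    obtain ⟨T, hT, hTf, hTc, hTi, -⟩ := Pool.Agent.Y920.ETC.bi_ext hS hb
    have hpos : 0 < Nat.card T.G := Nat.card_pos
    exact Elem.iso _ _ (Elem.ext _ (hmin T hT hTf (by omega))) hTi

end Pool.Agent.Results.MP_d26ff6_al.Partitions
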