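import Pool.Agent.R649.ET.Sixteen

/-! # MP_d26ff6_al: quaternionic structures with at most sixteen quaternions

A finite quaternionic structure whose quaternions lie in a group of exponent two in which `q` is
additive (for instance the structure of any field), and which has at most sixteen quaternions, is
of elementary type.  It is enough that at most sixteen quaternions have a slot in `⟨x,y,z⟩`, for
all `x, y, z`. -/

set_option autoImplicit false

namespace Pool.Agent.Results.MP_d26ff6_al.SixteenQuaternions

open Pool.Agent.H315R3.ETC

universe v

/-- the quaternions with a slot in the subset `W` of `G` -/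
def quats (S : QData) (W : Set S.G) : Set S.Q := {t | ∃ g ∈ W, ∃ b : S.G, S.q g b = t}

theorem result (S : QData) (hS : IsQuat S) (hfin : Finite S.G)
    -- the quaternions lie in a group `B` of exponent two in which `q` is additive
    {B : Type v} [AddCommGroup B] (hB : ∀ b : B, b + b = 0) (β : S.G → S.G → B)
    (hmul : ∀ a b c, β a (b * c) = β a b + β a c)
    (hq : ∀ a b c d, β a b = β c d ↔ S.q a b = S.q c d) :
    -- at most sixteen quaternions
    ((quats S Set.univ).ncard ≤ 16 → Elem S) ∧
    -- for all `x, y, z`: at most sixteen quaternions with a slot in `⟨x,y,z⟩`, or at most four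
    -- quaternions with slot `p`, for each of `p = x, y, z, xyz`
    ((∀ x y z : S.G, (quats S (Subgroup.closure {x, y, z} : Subgroup S.G)).ncard ≤ 16 ∨
      ∀ p : S.G, p = x ∨ p = y ∨ p = z ∨ p = x * y * z → (quats S {p}).ncard ≤ 4) → Elem S) := by
  refine ⟨fun h => Pool.Agent.R649.ETS.elem_of_sixteen S hS hfin hB β hmul hq ?_, fun h =>
    Pool.Agent.R649.ETS.elem_of_local S hS hfin hB β hmul hq fun x y z => ?_⟩
  · have e : quats S Set.univ = {t : S.Q | ∃ a b, S.q a b = t} := by
      ext t; simp [quats]
    rwa [e] at h
  · rcases h x y z with h | h
    · exact Or.inl h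
    · refine Or.inr fun p hp => ?_
      have e : quats S {p} = {t : S.Q | ∃ b, S.q p b = t} := by
        ext t; simp [quats]
      have := h p hp
      rwa [e] at this

end Pool.Agent.Results.MP_d26ff6_al.SixteenQuaternions
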